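import Pool.Agent.H47.KS.Targets

/-!
MP_90d669_co, board ksu_modules, row CNT: the counting part.
-/

set_option autoImplicit false

namespace Pool.Agent.H12.KSU

open Finset Pool.Agent.H37.SP Pool.Agent.H47.KS

/-- number of sets with many cheap large subsets -/
lemma rich_count (hRIC : T_RIC) (hSEP : T_SEP) (U J : Finset ℤ) (F : Finset (Finset ℤ))
    (t L c D : ℕ) (hF : F.card ≤ 2 ^ c)
    (hD : D + c * (J.card / (400 * (4 * L + 1))) ≤ t * (J.card / (400 * (4 * L + 1))))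
    (B : Finset (Finset ℤ))
    (hB : ∀ S ∈ B, S ⊆ U ∧ ∃ Y ⊆ S ∩ J, J.card < 400 * Y.card ∧
      ∀ y ∈ Y, ∃ T ∈ F, (∀ z ∈ T, z ∈ S ∧ |z - y| ≤ (L : ℤ)) ∧ t ≤ T.card) :
    B.card * 2 ^ D ≤ 2 ^ U.card := by
  classical
  set r := J.card / (400 * (4 * L + 1)) with hr
  have h1 := hRIC U (F.filter (fun T => t ≤ T.card)) t r B
    (fun T hT => (mem_filter.1 hT).2) (by
      intro S hS
      obtain ⟨hSU, Y, hY, hYc, hYT⟩ := hB S hS
      refine ⟨hSU, ?_⟩
      obtain ⟨Y', hY', hsep, hcard⟩ := hSEP Y (2 * L)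
      have hle : r ≤ Y'.card := by
        have h2 : J.card < Y'.card * (400 * (4 * L + 1)) := by
          calc J.card < 400 * Y.card := hYc
            _ ≤ 400 * (Y'.card * (2 * (2 * L) + 1)) := Nat.mul_le_mul_left _ hcard
            _ = Y'.card * (400 * (4 * L + 1)) := by ring
        exact ((Nat.div_lt_iff_lt_mul (by positivity)).2 h2).le
      obtain ⟨Y'', hY'', hc⟩ := exists_subset_card_eq hle
      choose! T hT1 hT2 hT3 using hYT
      have hm : ∀ i : Fin r, Y''.orderEmbOfFin hc i ∈ Y' := fun i =>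
        hY'' (orderEmbOfFin_mem Y'' hc i)
      refine ⟨fun i => T (Y''.orderEmbOfFin hc i), fun i => ⟨?_, ?_⟩, ?_⟩
      · exact mem_filter.2 ⟨hT1 _ (hY' (hm i)), hT3 _ (hY' (hm i))⟩
      · exact fun z hz => (hT2 _ (hY' (hm i)) z hz).1
      · intro i j hij
        rw [disjoint_left]
        intro z hzi hzj
        have e1 := (hT2 _ (hY' (hm i)) z hzi).2
        have e2 := (hT2 _ (hY' (hm j)) z hzj).2
        have e3 := hsep _ (hm i) _ (hm j) (fun h => hij ((Y''.orderEmbOfFin hc).injective h))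
        push_cast at e3
        rw [abs_le] at e1 e2
        rcases le_total 0 (Y''.orderEmbOfFin hc i - Y''.orderEmbOfFin hc j) with h | h
        · rw [abs_of_nonneg h] at e3
          omega
        · rw [abs_of_nonpos h] at e3
          omega)
  have h2 : (F.filter (fun T => t ≤ T.card)).card ^ r ≤ 2 ^ (c * r) := by
    rw [pow_mul]
    exact Nat.pow_le_pow_left ((card_filter_le _ _).trans hF) r
  have h3 : B.card * 2 ^ D * 2 ^ (c * r) ≤ 2 ^ U.card * 2 ^ (c * r) := by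
    calc B.card * 2 ^ D * 2 ^ (c * r) = B.card * 2 ^ (D + c * r) := by rw [pow_add]; ring
      _ ≤ B.card * 2 ^ (t * r) := Nat.mul_le_mul_left _ (Nat.pow_le_pow_right (by norm_num) hD)
      _ ≤ _ := h1
      _ ≤ 2 ^ (c * r) * 2 ^ U.card := Nat.mul_le_mul_right _ h2
      _ = _ := by ring
  exact Nat.le_of_mul_le_mul_right h3 (by positivity)

theorem pf_CNT (hTYP : T_TYP) (hMIS : T_MIS) (hBIN : T_BIN) (hRIC : T_RIC) (hFAP : T_FAP)
    (hFAA : T_FAA) (hSEP : T_SEP) (hTRA : T_TRA) : T_CNT := by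
  classical
  intro P hok hg
  obtain ⟨c1, hc1, hd1⟩ := hg.c1
  obtain ⟨c2, hc2, hd2⟩ := hg.c2
  set M := P.k.choose 2 with hM
  have hDM := hg.DM
  rw [← hM] at hDM
  have hMk : C2 (P.k : ℤ) = (M : ℤ) := C2_choose P.k
  set U : Finset ℤ := Icc (0 : ℤ) M with hU
  have hUc : U.card = M + 1 := by
    rw [hU, Int.card_Icc]
    omega
  set J := Jset P.k with hJ
  have hJU : J ⊆ U := by
    intro z hz
    rw [hJ, Jset, mem_Icc] at hz
    rw [hU, mem_Icc]
    have hk : (0 : ℤ) ≤ P.k := Int.natCast_nonneg _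
    have h0 := two_C2 (P.k : ℤ)
    rw [hMk] at h0
    have h3 : (3 : ℤ) ≤ P.k := by
      by_contra hlt
      push Not at hlt
      have h4 : (P.k : ℤ) * ((P.k : ℤ) - 1) ≤ 2 * 1 := by nlinarith
      omega
    have h1 : (0 : ℤ) ≤ (22 * (P.k : ℤ) ^ 2 + 99) / 100 := by positivity
    have h2 : 28 * (P.k : ℤ) ^ 2 / 100 * 100 ≤ 28 * (P.k : ℤ) ^ 2 := Int.ediv_mul_le _ (by norm_num)
    refine ⟨h1.trans hz.1, ?_⟩
    nlinarith [hz.2]
  -- the families
  obtain ⟨F1, hF1, hF1c⟩ := hFAP P.nu P.x0 M hok.x2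
  obtain ⟨F2, hF2, hF2c⟩ := hFAP P.d (4 * P.nu) M (by have := hok.nu1; omega)
  obtain ⟨F3, hF3, hF3c⟩ := hFAA P.p M hok.p1
  obtain ⟨F4, hF4, hF4c⟩ := hFAP 1 P.x0 M hok.x2
  -- the bad sets
  set B1 := U.powerset.filter (fun S => Disjoint S (Icc (0 : ℤ) (P.D + 3))) with hB1
  set B2 := U.powerset.filter (fun S => Disjoint S (Icc ((M : ℤ) - (P.D + 3)) M)) with hB2
  set B3 := U.powerset.filter (fun S => 100 * (S ∩ J).card ≤ J.card) with hB3
  set B4 := U.powerset.filter (fun S => ∃ Y ⊆ S ∩ J, J.card < 400 * Y.card ∧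
    ∀ y ∈ Y, R1 P (S : Set ℤ) y) with hB4
  set B5 := U.powerset.filter (fun S => ∃ Y ⊆ S ∩ J, J.card < 400 * Y.card ∧
    ∀ y ∈ Y, R2 P (S : Set ℤ) y) with hB5
  have b1 : B1.card * 2 ^ (P.D + 4) ≤ 2 ^ (M + 1) := by
    have h := hMIS U (Icc (0 : ℤ) (P.D + 3)) (by
      intro z hz
      rw [mem_Icc] at hz
      rw [hU, mem_Icc]
      omega)
    have hc : (Icc (0 : ℤ) (P.D + 3)).card = P.D + 4 := by
      rw [Int.card_Icc]; omega
    rw [hc, hUc] at h
    exact h.le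
  have b2 : B2.card * 2 ^ (P.D + 4) ≤ 2 ^ (M + 1) := by
    have h := hMIS U (Icc ((M : ℤ) - (P.D + 3)) M) (by
      intro z hz
      rw [mem_Icc] at hz
      rw [hU, mem_Icc]
      omega)
    have hc : (Icc ((M : ℤ) - (P.D + 3)) M).card = P.D + 4 := by
      rw [Int.card_Icc]; omega
    rw [hc, hUc] at h
    exact h.le
  have b3 : B3.card * 2 ^ (P.D + 4) ≤ 2 ^ (M + 1) := by
    have h := hBIN U J hJU
    rw [hUc] at h
    refine le_trans (Nat.mul_le_mul_left _ (Nat.pow_le_pow_right (by norm_num) ?_)) h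
    have := hg.J1
    rw [← hJ] at this
    omega
  have b4 : B4.card * 2 ^ (P.D + 4) ≤ 2 ^ (M + 1) := by
    rw [← hUc]
    refine rich_count hRIC hSEP U J (F1 ∪ F2 ∪ F3) P.t1 P.L1 c1 (P.D + 4) ?_ hd1 B4 ?_
    · refine le_trans (card_union_le _ _) (le_trans (Nat.add_le_add (card_union_le _ _) le_rfl) ?_)
      exact le_trans (Nat.add_le_add (Nat.add_le_add hF1c hF2c) hF3c) hc1
    · intro S hS
      rw [hB4, mem_filter, mem_powerset] at hS
      obtain ⟨hSU, Y, hY, hYc, hYR⟩ := hS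
      refine ⟨hSU, Y, hY, hYc, fun y hy => ?_⟩
      obtain ⟨T, hT, hTS, hTc⟩ := hYR y hy
      have hTU : T ⊆ Icc (0 : ℤ) M := fun z hz => hSU (by simpa using (hTS z hz).1)
      refine ⟨T, ?_, fun z hz => ⟨by simpa using (hTS z hz).1, (hTS z hz).2⟩, hTc⟩
      rcases hT with hT | hT | hT
      · exact mem_union_right _ (hF3 T hT hTU)
      · exact mem_union_left _ (mem_union_left _ (hF1 T hT hTU))
      · exact mem_union_left _ (mem_union_right _ (hF2 T hT hTU))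
  have b5 : B5.card * 2 ^ (P.D + 4) ≤ 2 ^ (M + 1) := by
    rw [← hUc]
    refine rich_count hRIC hSEP U J F4 P.t2 P.L2 c2 (P.D + 4) ?_ hd2 B5 ?_
    · rw [pow_one] at hF4c
      exact hF4c.trans hc2
    · intro S hS
      rw [hB5, mem_filter, mem_powerset] at hS
      obtain ⟨hSU, Y, hY, hYc, hYR⟩ := hS
      refine ⟨hSU, Y, hY, hYc, fun y hy => ?_⟩
      obtain ⟨T, hT, hTS, hTc⟩ := hYR y hy
      have hTU : T ⊆ Icc (0 : ℤ) M := fun z hz => hSU (by simpa using (hTS z hz).1)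
      exact ⟨T, hF4 T hT hTU, fun z hz => ⟨by simpa using (hTS z hz).1, (hTS z hz).2⟩, hTc⟩
  -- spectra are bad
  have key : nk P.k ≤ (B1 ∪ B2 ∪ B3 ∪ B4 ∪ B5).card := by
    refine hTRA P.k _ ?_
    intro S N G hkN hS
    have hSS : SS P.k G = (S : Set ℤ) := by
      ext z
      rw [hS z]
      simp
    have hSU : S ⊆ U := by
      intro z hz
      have := SS_bounds G ((hS z).2 hz)
      rw [hMk] at this
      rw [hU, mem_Icc]
      exact this
    by_cases h1 : Disjoint S (Icc (0 : ℤ) (P.D + 3))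
    · refine mem_union_left _ (mem_union_left _ (mem_union_left _ (mem_union_left _ ?_)))
      exact mem_filter.2 ⟨mem_powerset.2 hSU, h1⟩
    by_cases h2 : Disjoint S (Icc ((M : ℤ) - (P.D + 3)) M)
    · refine mem_union_left _ (mem_union_left _ (mem_union_left _ (mem_union_right _ ?_)))
      exact mem_filter.2 ⟨mem_powerset.2 hSU, h2⟩
    by_cases h3 : 100 * (S ∩ J).card ≤ J.card
    · refine mem_union_left _ (mem_union_left _ (mem_union_right _ ?_))
      exact mem_filter.2 ⟨mem_powerset.2 hSU, h3⟩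
    rw [not_disjoint_iff] at h1 h2
    obtain ⟨z1, hz1, hz1'⟩ := h1
    obtain ⟨z2, hz2, hz2'⟩ := h2
    rw [mem_Icc] at hz1' hz2'
    rcases hTYP P S N G hok hg hS (by rw [← hJ]; omega) ⟨z1, hz1, hz1'.2⟩
      ⟨z2, hz2, by rw [hMk]; exact hz2'.1⟩ with h | h
    · rw [hSS] at h
      refine mem_union_left _ (mem_union_right _ ?_)
      exact mem_filter.2 ⟨mem_powerset.2 hSU, h⟩
    · rw [hSS] at h
      refine mem_union_right _ ?_
      exact mem_filter.2 ⟨mem_powerset.2 hSU, h⟩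
  have hsum : (B1 ∪ B2 ∪ B3 ∪ B4 ∪ B5).card ≤ B1.card + B2.card + B3.card + B4.card + B5.card := by
    refine (card_union_le _ _).trans (Nat.add_le_add ?_ le_rfl)
    refine (card_union_le _ _).trans (Nat.add_le_add ?_ le_rfl)
    refine (card_union_le _ _).trans (Nat.add_le_add ?_ le_rfl)
    exact card_union_le _ _
  have hpow : 2 ^ (M + 1) * 8 = 2 ^ (M - P.D) * 2 ^ (P.D + 4) := by
    have h8 : (8 : ℕ) = 2 ^ 3 := by norm_num
    rw [h8, ← pow_add, ← pow_add]
    congr 1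
    omega
  have hfin : nk P.k * 2 ^ (P.D + 4) ≤ 2 ^ (M - P.D) * 2 ^ (P.D + 4) := by
    calc nk P.k * 2 ^ (P.D + 4)
        ≤ (B1.card + B2.card + B3.card + B4.card + B5.card) * 2 ^ (P.D + 4) :=
          Nat.mul_le_mul_right _ (key.trans hsum)
      _ = B1.card * 2 ^ (P.D + 4) + B2.card * 2 ^ (P.D + 4) + B3.card * 2 ^ (P.D + 4) +
          B4.card * 2 ^ (P.D + 4) + B5.card * 2 ^ (P.D + 4) := by ring
      _ ≤ 2 ^ (M + 1) * 8 := by
          have hp : 0 < 2 ^ (M + 1) := by positivity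
          omega
      _ = _ := hpow
  exact Nat.le_of_mul_le_mul_right hfin (by positivity)

end Pool.Agent.H12.KSU
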